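import Pool.Agent.H36.Hrq

open Pool.Agent.H38.NP Pool.Agent.H36.Hrq

theorem Pool.Agent.Results.MP_52010b_lc.HardA.result :
    NPHardOn (fun p : Inst × ℕ => Valid p.1) BigA :=
  hardA.npHardOn
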